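import Mathlib

-- part Pool.Agent.P.MP_f33f0c_an.Step
section

/-! One-step convex domination and anti-concentration for the averaging operator `V`. -/

set_option autoImplicit false

namespace Pool.Agent.P.MP_f33f0c_an

open Real Finset

/-- The angle `2π / (4m)`. -/
noncomputable def al (m : ℕ) : ℝ := π / (2 * m)

/-- The multiplicative steps. -/
noncomputable def xi (m s : ℕ) : ℝ := 1 + cos (s * al m)

/-- The polygon constant. -/
noncomputable def DD (m : ℕ) : ℝ := 1 / cos (al m / 2)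

/-- The averaging operator. -/
noncomputable def V (m : ℕ) (f : ℝ → ℝ) (x : ℝ) : ℝ :=
  (1 / (4 * m : ℝ)) * ∑ s ∈ range (4 * m), f (DD m * x * xi m s)

theorem al_pos {m : ℕ} (hm : 0 < m) : 0 < al m := by
  unfold al
  have : (0 : ℝ) < m := by exact_mod_cast hm
  positivity

theorem al_le {m : ℕ} (hm : 0 < m) : al m ≤ π / 2 := by
  unfold al
  have : (1 : ℝ) ≤ m := by exact_mod_cast hm
  apply div_le_div_of_nonneg_left pi_pos.le (by norm_num)
  linarith

theorem mul_al {m : ℕ} (hm : 0 < m) : (m : ℝ) * al m = π / 2 := by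
  unfold al
  have : (m : ℝ) ≠ 0 := by exact_mod_cast hm.ne'
  field_simp

theorem cos_half_pos {m : ℕ} (hm : 0 < m) : 0 < cos (al m / 2) := by
  have h1 := al_pos hm
  have h2 := al_le hm
  exact cos_pos_of_mem_Ioo ⟨by linarith [pi_pos], by linarith [pi_pos]⟩

theorem one_le_DD {m : ℕ} (hm : 0 < m) : 1 ≤ DD m := by
  unfold DD
  rw [le_div_iff₀ (cos_half_pos hm), one_mul]
  exact cos_le_one _

theorem xi_nonneg (m s : ℕ) : 0 ≤ xi m s := by
  unfold xi
  linarith [neg_one_le_cos (s * al m)]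

theorem orbit_sum {E : Type} [AddCommMonoid E] {m : ℕ} (hm : 0 < m) (F : ℝ → E) (θ : ℝ) :
    ∑ s ∈ range (4 * m), F (θ + s * al m) = ∑ t ∈ range m,
      (F (θ + t * al m) + F (θ + t * al m + π / 2) + F (θ + t * al m + π) +
        F (θ + t * al m + π + π / 2)) := by
  have h := mul_al hm
  rw [show 4 * m = m + m + m + m by ring, sum_range_add, sum_range_add, sum_range_add]
  simp only [sum_add_distrib]
  congr 1
  · congr 1
    · congr 1
      refine sum_congr rfl fun t _ => ?_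
      congr 1
      push_cast
      linarith
    · refine sum_congr rfl fun t _ => ?_
      congr 1
      push_cast
      linarith
  · refine sum_congr rfl fun t _ => ?_
    congr 1
    push_cast
    linarith

theorem sum_cos {m : ℕ} (hm : 0 < m) (θ : ℝ) :
    ∑ s ∈ range (4 * m), cos (θ + s * al m) = 0 := by
  rw [orbit_sum hm cos θ]
  refine sum_eq_zero fun t _ => ?_
  simp only [cos_add_pi_div_two, cos_add_pi, sin_add_pi]
  ring

theorem sum_sq {m : ℕ} (hm : 0 < m) (θ : ℝ) :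
    ∑ s ∈ range (4 * m), (1 + cos (θ + s * al m)) ^ 2 = 6 * (m : ℝ) := by
  rw [orbit_sum hm (fun x => (1 + cos x) ^ 2) θ]
  have : ∀ t ∈ range m, ((1 + cos (θ + t * al m)) ^ 2 + (1 + cos (θ + t * al m + π / 2)) ^ 2 +
      (1 + cos (θ + t * al m + π)) ^ 2 + (1 + cos (θ + t * al m + π + π / 2)) ^ 2) = 6 := by
    intro t _
    simp only [cos_add_pi_div_two, cos_add_pi, sin_add_pi]
    nlinarith [sin_sq_add_cos_sq (θ + t * al m)]
  rw [sum_congr rfl this]
  simp [mul_comm]

theorem sum_shift {m : ℕ} (hm : 0 < m) (h : ℝ → ℝ) (t : ℤ) :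
    ∑ s ∈ range (4 * m), h (cos ((t + s) * al m)) = ∑ s ∈ range (4 * m), h (cos (s * al m)) := by
  have one : ∀ u : ℝ, ∑ s ∈ range (4 * m), h (cos ((u + 1 + s) * al m)) =
      ∑ s ∈ range (4 * m), h (cos ((u + s) * al m)) := by
    intro u
    have e1 := sum_range_succ (fun s : ℕ => h (cos ((u + s) * al m))) (4 * m)
    have e2 := sum_range_succ' (fun s : ℕ => h (cos ((u + s) * al m))) (4 * m)
    have e3 : cos ((u + ((4 * m : ℕ) : ℝ)) * al m) = cos ((u + ((0 : ℕ) : ℝ)) * al m) := by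
      have := mul_al hm
      rw [← cos_add_two_pi ((u + ((0 : ℕ) : ℝ)) * al m)]
      congr 1
      push_cast
      linarith
    rw [e1, e3] at e2
    rw [add_right_cancel e2]
    refine sum_congr rfl fun s _ => ?_
    congr 2
    push_cast
    ring
  induction t using Int.induction_on with
  | zero => simp
  | succ n ih =>
    rw [← ih]
    have := one (n : ℝ)
    push_cast at this ⊢
    exact this
  | pred n ih =>
    rw [← ih]
    have := one (-(n : ℝ) - 1)
    push_cast at this ⊢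
    rw [← this]
    refine sum_congr rfl fun s _ => ?_
    congr 2
    ring

theorem polygon {m : ℕ} (hm : 0 < m) (θ : ℝ) : ∃ (t : ℤ) (w₁ w₂ : ℝ), 0 ≤ w₁ ∧ 0 ≤ w₂ ∧
    w₁ + w₂ ≤ DD m ∧ ∀ s : ℝ, cos (θ + s * al m) =
      w₁ * cos ((t + s) * al m) + w₂ * cos (((t + 1 : ℤ) + s) * al m) := by
  have ha := al_pos hm
  have ha2 := al_le hm
  set a := al m with hadef
  set t := ⌊θ / a⌋ with ht
  set r := θ - t * a with hr
  have hr0 : 0 ≤ r := by
    have := Int.floor_le (θ / a)
    rw [le_div_iff₀ ha] at this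
    linarith
  have hr1 : r ≤ a := by
    have := Int.lt_floor_add_one (θ / a)
    rw [div_lt_iff₀ ha] at this
    linarith
  have hs : 0 < sin a := sin_pos_of_pos_of_lt_pi ha (by linarith [pi_pos])
  refine ⟨t, sin (a - r) / sin a, sin r / sin a,
    div_nonneg (sin_nonneg_of_nonneg_of_le_pi (by linarith) (by linarith [pi_pos])) hs.le,
    div_nonneg (sin_nonneg_of_nonneg_of_le_pi hr0 (by linarith [pi_pos])) hs.le, ?_, ?_⟩
  · have hc := cos_half_pos hm
    rw [← hadef] at hc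
    have hs2 : 0 < sin (a / 2) := sin_pos_of_pos_of_lt_pi (by linarith) (by linarith [pi_pos])
    have e1 : sin a = 2 * sin (a / 2) * cos (a / 2) := by rw [← sin_two_mul]; congr 1; ring
    have e2 : sin (a - r) + sin r = 2 * sin (a / 2) * cos (a / 2 - r) := by
      have h1 := sin_add (a / 2) (a / 2 - r)
      have h2 := sin_sub (a / 2) (a / 2 - r)
      rw [show a / 2 + (a / 2 - r) = a - r by ring] at h1
      rw [show a / 2 - (a / 2 - r) = r by ring] at h2
      linarith
    rw [← add_div, e2, e1, DD, ← hadef, div_le_div_iff₀ (by positivity) hc]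
    have := cos_le_one (a / 2 - r)
    nlinarith [mul_pos hs2 hc]
  · intro s
    have e1 : θ + s * a = (t + s) * a + r := by rw [hr]; ring
    have e2 : (((t + 1 : ℤ) : ℝ) + s) * a = (t + s) * a + a := by push_cast; ring
    rw [e1, e2, cos_add _ r, cos_add _ a, sin_sub a r]
    field_simp
    ring

theorem step_le {m : ℕ} (hm : 0 < m) {f : ℝ → ℝ} (hc : ConvexOn ℝ Set.univ f) (hf : Monotone f)
    {A b : ℝ} (hb : 0 ≤ b) (hA : b ≤ A) (θ : ℝ) :
    (1 / (4 * m : ℝ)) * ∑ s ∈ range (4 * m), f (A + b * cos (θ + s * al m)) ≤ V m f A := by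
  have hm' : (0 : ℝ) < m := by exact_mod_cast hm
  obtain ⟨t, w₁, w₂, h1, h2, h3, h4⟩ := polygon hm θ
  have hD := one_le_DD hm
  unfold V
  refine mul_le_mul_of_nonneg_left ?_ (by positivity)
  rcases (hb.trans hA).eq_or_lt with h0 | h0
  · have : b = 0 := le_antisymm (h0 ▸ hA) hb
    simp [this, ← h0]
  set B := DD m * A with hB
  have hB0 : 0 < B := by positivity
  have hAB : A ≤ B := by rw [hB]; nlinarith
  set T := ∑ s ∈ range (4 * m), f (B * xi m s) with hT
  have hw : b * w₁ + b * w₂ ≤ B := by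
    rw [hB, ← mul_add, mul_comm]
    exact mul_le_mul h3 hA hb (by linarith)
  have hJ : (4 * m : ℝ) * f A ≤ T := by
    have := hc.map_sum_le (t := range (4 * m)) (w := fun _ => 1 / (4 * m : ℝ))
      (p := fun s => B * xi m s) (fun _ _ => by positivity)
      (by simp; field_simp) (fun _ _ => Set.mem_univ _)
    simp only [smul_eq_mul, ← mul_sum] at this
    have e : ∑ s ∈ range (4 * m), xi m s = 4 * m := by
      have := sum_cos hm 0
      simp only [zero_add] at this
      simp [xi, sum_add_distrib, this]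
    rw [e, ← hT, show 1 / (4 * m : ℝ) * (B * (4 * m)) = B by field_simp] at this
    have h5 := hf hAB
    calc (4 * m : ℝ) * f A ≤ (4 * m : ℝ) * (1 / (4 * m : ℝ) * T) := by gcongr; linarith
      _ = T := by field_simp
  have key : ∀ s ∈ range (4 * m), f (A + b * cos (θ + s * al m)) ≤
      (b * w₁ / B) * f (B * (1 + cos ((t + s) * al m))) +
      (b * w₂ / B) * f (B * (1 + cos (((t + 1 : ℤ) + s) * al m))) +
      (1 - (b * w₁ + b * w₂) / B) * f A := by
    intro s _
    have := hc.map_sum_le (t := (univ : Finset (Fin 3)))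
      (w := ![b * w₁ / B, b * w₂ / B, 1 - (b * w₁ + b * w₂) / B])
      (p := ![B * (1 + cos ((t + s) * al m)), B * (1 + cos (((t + 1 : ℤ) + s) * al m)), A])
      (by
        intro i _
        fin_cases i
        · simp; positivity
        · simp; positivity
        · simp; rw [div_le_one hB0]; exact hw)
      (by simp [Fin.sum_univ_three]; ring) (fun _ _ => Set.mem_univ _)
    simp only [Fin.sum_univ_three, smul_eq_mul, Matrix.cons_val_zero, Matrix.cons_val_one,
      Matrix.cons_val] at this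
    refine le_trans (hf ?_) this
    rw [h4 s]
    have e : b * w₁ / B * (B * (1 + cos ((t + s) * al m))) +
        b * w₂ / B * (B * (1 + cos (((t + 1 : ℤ) + s) * al m))) + (1 - (b * w₁ + b * w₂) / B) * A =
        A + b * (w₁ * cos ((t + s) * al m) + w₂ * cos (((t + 1 : ℤ) + s) * al m)) +
          (b * w₁ + b * w₂) * (1 - A / B) := by
      field_simp
      ring
    rw [e]
    have : 0 ≤ (b * w₁ + b * w₂) * (1 - A / B) :=
      mul_nonneg (by positivity) (by rw [sub_nonneg, div_le_one hB0]; exact hAB)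
    linarith
  refine (sum_le_sum key).trans ?_
  simp only [sum_add_distrib, ← mul_sum]
  rw [sum_shift hm (fun c => f (B * (1 + c))) t, sum_shift hm (fun c => f (B * (1 + c))) (t + 1)]
  simp only [sum_const, card_range, nsmul_eq_mul]
  have e : ∑ s ∈ range (4 * m), f (B * (1 + cos (s * al m))) = T := rfl
  rw [e]
  have h6 : 0 ≤ 1 - (b * w₁ + b * w₂) / B := by rw [sub_nonneg, div_le_one hB0]; exact hw
  have h7 := mul_le_mul_of_nonneg_left hJ h6
  push_cast
  calc _ ≤ b * w₁ / B * T + b * w₂ / B * T + (1 - (b * w₁ + b * w₂) / B) * T := by linarith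
    _ = T := by ring

theorem V_convex {m : ℕ} {f : ℝ → ℝ} (hc : ConvexOn ℝ Set.univ f) :
    ConvexOn ℝ Set.univ (V m f) := by
  refine ⟨convex_univ, fun x _ y _ a b ha hb hab => ?_⟩
  simp only [V, smul_eq_mul]
  have : ∀ s ∈ range (4 * m), f (DD m * (a * x + b * y) * xi m s) ≤
      a * f (DD m * x * xi m s) + b * f (DD m * y * xi m s) := by
    intro s _
    have := hc.2 (Set.mem_univ (DD m * x * xi m s)) (Set.mem_univ (DD m * y * xi m s)) ha hb hab
    simp only [smul_eq_mul] at this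
    rwa [show DD m * (a * x + b * y) * xi m s =
      a * (DD m * x * xi m s) + b * (DD m * y * xi m s) by ring]
  calc _ ≤ (1 / (4 * m : ℝ)) * ∑ s ∈ range (4 * m),
        (a * f (DD m * x * xi m s) + b * f (DD m * y * xi m s)) :=
        mul_le_mul_of_nonneg_left (sum_le_sum this) (by positivity)
    _ = _ := by
        simp only [sum_add_distrib, ← mul_sum]
        ring

theorem V_mono {m : ℕ} (hm : 0 < m) {f : ℝ → ℝ} (hf : Monotone f) : Monotone (V m f) := by
  intro x y hxy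
  have hD := one_le_DD hm
  refine mul_le_mul_of_nonneg_left (sum_le_sum fun s _ => hf ?_) (by positivity)
  have := xi_nonneg m s
  gcongr

theorem V_cont {m : ℕ} {f : ℝ → ℝ} (hf : Continuous f) : Continuous (V m f) := by
  unfold V
  fun_prop

/-- Multiplicative characters `y ^ (2 + i τ)`. -/
noncomputable def chi (τ y : ℝ) : ℂ := (y : ℂ) ^ 2 * Complex.exp (((τ * log y : ℝ) : ℂ) * Complex.I)

theorem chi_mul (τ x y : ℝ) : chi τ (x * y) = chi τ x * chi τ y := by
  unfold chi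
  by_cases hx : x = 0
  · simp [hx]
  by_cases hy : y = 0
  · simp [hy]
  rw [log_mul hx hy, mul_add]
  push_cast
  rw [add_mul, Complex.exp_add]
  ring

theorem norm_chi (τ y : ℝ) : ‖chi τ y‖ = y ^ 2 := by
  rw [chi, norm_mul, Complex.norm_exp_ofReal_mul_I]
  simp

theorem norm_pair {τ p q : ℝ} (hτ : |τ| ≤ 1 / 2) (hp : 17 / 10 ≤ p) (hp' : p ≤ 2)
    (hq : 29 / 100 ≤ q) (hq' : q ≤ 1) : ‖chi τ p + chi τ q‖ ≤ p ^ 2 + q ^ 2 - τ ^ 2 / 1000 := by
  have hτ2 : τ ^ 2 ≤ 1 / 4 := by nlinarith [sq_abs τ, abs_nonneg τ]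
  have l1 : 2 / 5 ≤ log p := by
    have := one_sub_inv_le_log_of_pos (x := p) (by linarith)
    have h : p⁻¹ ≤ 10 / 17 := by rw [inv_le_comm₀ (by linarith) (by norm_num)]; linarith
    linarith
  have l2 : log p ≤ 1 := by linarith [log_le_sub_one_of_pos (x := p) (by linarith)]
  have l3 : log q ≤ 0 := log_nonpos (by linarith) hq'
  have l4 : -(5 / 2) ≤ log q := by
    have := one_sub_inv_le_log_of_pos (x := q) (by linarith)
    have h : q⁻¹ ≤ 100 / 29 := by rw [inv_le_comm₀ (by linarith) (by norm_num)]; linarith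
    linarith
  set Δ := log p - log q with hΔ
  have hcos : cos (τ * Δ) ≤ 1 - 4 / 125 * τ ^ 2 := by
    have h1 : |τ * Δ| ≤ π := by
      rw [abs_mul, abs_of_nonneg (by linarith : 0 ≤ Δ)]
      have : |τ| * Δ ≤ 1 / 2 * (7 / 2) := mul_le_mul hτ (by linarith) (by linarith) (by norm_num)
      linarith [pi_gt_three]
    have h2 := cos_le_one_sub_mul_cos_sq h1
    have h3 : 1 / 5 ≤ 2 / π ^ 2 := by
      rw [le_div_iff₀ (by positivity)]
      nlinarith [pi_lt_d2, pi_pos]
    have h4 : 4 / 25 * τ ^ 2 ≤ (τ * Δ) ^ 2 := by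
      rw [mul_pow]
      have : 4 / 25 ≤ Δ ^ 2 := by nlinarith
      nlinarith [sq_nonneg τ]
    nlinarith [sq_nonneg τ, sq_nonneg (τ * Δ)]
  have hsq : ‖chi τ p + chi τ q‖ ^ 2 = p ^ 4 + q ^ 4 + 2 * p ^ 2 * q ^ 2 * cos (τ * Δ) := by
    rw [Complex.sq_norm, Complex.normSq_apply, hΔ, mul_sub, cos_sub]
    simp only [chi, Complex.add_re, Complex.add_im, ← Complex.ofReal_pow, Complex.re_ofReal_mul,
      Complex.im_ofReal_mul, Complex.exp_ofReal_mul_I_re, Complex.exp_ofReal_mul_I_im]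
    linear_combination p ^ 4 * sin_sq_add_cos_sq (τ * log p) +
      q ^ 4 * sin_sq_add_cos_sq (τ * log q)
  have hp2 : 289 / 100 ≤ p ^ 2 := by nlinarith
  have hp3 : p ^ 2 ≤ 4 := by nlinarith
  have hq2 : 841 / 10000 ≤ q ^ 2 := by nlinarith
  have hq3 : q ^ 2 ≤ 1 := by nlinarith
  have hpq : 24 / 100 ≤ p ^ 2 * q ^ 2 := by nlinarith
  refine (pow_le_pow_iff_left₀ (norm_nonneg _) (by nlinarith) two_ne_zero).1 ?_
  rw [hsq]
  have h5 : 2 * p ^ 2 * q ^ 2 * cos (τ * Δ) ≤ 2 * p ^ 2 * q ^ 2 * (1 - 4 / 125 * τ ^ 2) :=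
    mul_le_mul_of_nonneg_left hcos (by positivity)
  nlinarith [sq_nonneg τ, mul_le_mul_of_nonneg_left hpq (sq_nonneg τ),
    mul_le_mul_of_nonneg_left hp3 (sq_nonneg τ), mul_le_mul_of_nonneg_left hq3 (sq_nonneg τ),
    sq_nonneg (τ ^ 2)]

theorem norm_four {τ y z : ℝ} (hτ : |τ| ≤ 1 / 2) (h : y ^ 2 + z ^ 2 = 1) :
    ‖chi τ (1 + y) + chi τ (1 - z) + chi τ (1 - y) + chi τ (1 + z)‖ ≤ 6 - τ ^ 2 / 1000 := by
  have base : ∀ y z : ℝ, 0 ≤ y → y ≤ z → y ^ 2 + z ^ 2 = 1 →
      ‖(chi τ (1 + y) + chi τ (1 - y)) + (chi τ (1 + z) + chi τ (1 - z))‖ ≤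
        6 - τ ^ 2 / 1000 := by
    intro y z hy hyz h
    have h1 := norm_pair (p := 1 + z) (q := 1 - y) hτ (by nlinarith) (by nlinarith)
      (by nlinarith) (by linarith)
    have e : (chi τ (1 + y) + chi τ (1 - y)) + (chi τ (1 + z) + chi τ (1 - z)) =
        (chi τ (1 + z) + chi τ (1 - y)) + (chi τ (1 + y) + chi τ (1 - z)) := by ring
    rw [e]
    have h2 := norm_add_le (chi τ (1 + y)) (chi τ (1 - z))
    rw [norm_chi, norm_chi] at h2
    have h3 := norm_add_le (chi τ (1 + z) + chi τ (1 - y)) (chi τ (1 + y) + chi τ (1 - z))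
    nlinarith
  have sym : ∀ y : ℝ, chi τ (1 + y) + chi τ (1 - y) = chi τ (1 + |y|) + chi τ (1 - |y|) := by
    intro y
    rcases abs_cases y with h | h
    · rw [h.1]
    · rw [h.1, sub_neg_eq_add, ← sub_eq_add_neg, add_comm]
  have e : chi τ (1 + y) + chi τ (1 - z) + chi τ (1 - y) + chi τ (1 + z) =
      (chi τ (1 + y) + chi τ (1 - y)) + (chi τ (1 + z) + chi τ (1 - z)) := by ring
  rw [e, sym y, sym z]
  rcases le_total |y| |z| with h1 | h1
  · exact base _ _ (abs_nonneg _) h1 (by rw [sq_abs, sq_abs]; exact h)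
  · rw [add_comm]
    exact base _ _ (abs_nonneg _) h1 (by rw [sq_abs, sq_abs]; linarith)

/-- Mellin transform of the step distribution. -/
noncomputable def phi (m : ℕ) (τ : ℝ) : ℂ :=
  (1 / (4 * m : ℂ)) * ∑ s ∈ range (4 * m), chi τ (xi m s)

theorem norm_phi_le {m : ℕ} (hm : 0 < m) {τ : ℝ} (hτ : |τ| ≤ 1 / 2) :
    ‖phi m τ‖ ≤ 3 / 2 - τ ^ 2 / 4000 := by
  have hm' : (0 : ℝ) < m := by exact_mod_cast hm
  have e := orbit_sum hm (fun x => chi τ (1 + cos x)) 0
  simp only [zero_add] at e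
  have e2 : ∑ s ∈ range (4 * m), chi τ (xi m s) =
      ∑ s ∈ range (4 * m), chi τ (1 + cos (s * al m)) := rfl
  rw [phi, e2, e, norm_mul]
  have h1 : ‖(1 / (4 * m : ℂ))‖ = 1 / (4 * m : ℝ) := by simp
  have h2 := norm_sum_le_of_le (range m) (f := fun t : ℕ => chi τ (1 + cos (t * al m)) +
      chi τ (1 + cos (t * al m + π / 2)) + chi τ (1 + cos (t * al m + π)) +
      chi τ (1 + cos (t * al m + π + π / 2))) (n := fun _ => 6 - τ ^ 2 / 1000) (by
    intro t _
    simp only [cos_add_pi_div_two, cos_add_pi, sin_add_pi, neg_neg, ← sub_eq_add_neg]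
    exact norm_four hτ (cos_sq_add_sin_sq _))
  rw [h1]
  simp only [sum_const, card_range, nsmul_eq_mul] at h2
  calc _ ≤ 1 / (4 * m : ℝ) * (m * (6 - τ ^ 2 / 1000)) :=
        mul_le_mul_of_nonneg_left h2 (by positivity)
    _ = _ := by field_simp; ring

theorem iter_le {m : ℕ} (hm : 0 < m) {ι : Type} (I : Finset ι) (τ : ι → ℝ) (J : ℕ) :
    ∀ (f : ℝ → ℝ) (c : ι → ℂ), (∀ y, 0 ≤ y → f y ≤ (∑ i ∈ I, c i * chi (τ i) y).re) →
      ∀ y, 0 ≤ y → (V m)^[J] f y ≤
        (∑ i ∈ I, c i * (chi (τ i) (DD m) * phi m (τ i)) ^ J * chi (τ i) y).re := by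
  induction J with
  | zero => intro f c h y hy; simpa using h y hy
  | succ J ih =>
    intro f c h y hy
    rw [Function.iterate_succ_apply]
    have := ih (V m f) (fun i => c i * (chi (τ i) (DD m) * phi m (τ i))) ?_ y hy
    · convert this using 3
      ring
    · intro y hy
      have hD := one_le_DD hm
      have h1 : V m f y ≤ (1 / (4 * m : ℝ)) * ∑ s ∈ range (4 * m),
          (∑ i ∈ I, c i * chi (τ i) (DD m * y * xi m s)).re :=
        mul_le_mul_of_nonneg_left (sum_le_sum fun s _ => h _ (by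
          have := xi_nonneg m s
          positivity)) (by positivity)
      refine h1.trans (le_of_eq ?_)
      rw [← Complex.re_sum, ← Complex.re_ofReal_mul, sum_comm, mul_sum]
      congr 1
      refine sum_congr rfl fun i _ => ?_
      simp only [chi_mul, phi, mul_sum, sum_mul]
      refine sum_congr rfl fun s _ => ?_
      push_cast
      ring

theorem majorant {R : ℕ} (hR : 0 < R) {μ : ℝ} (hμ : 0 < μ) (y : ℝ) :
    max (y - μ) 0 ≤ ∑ p ∈ range R ×ˢ range R, (if p.1 = p.2 then 3 else 2) / (μ * R ^ 2) *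
      (y ^ 2 * cos (((p.1 : ℝ) - p.2) / (2 * R ^ 2) * (log y - log μ))) := by
  have hR' : (1 : ℝ) ≤ R := by exact_mod_cast hR
  set u := (log y - log μ) / (2 * R ^ 2) with hu
  set F := ∑ p ∈ range R ×ˢ range R, cos (((p.1 : ℝ) - p.2) * u) with hF
  have e : ∑ p ∈ range R ×ˢ range R, (if p.1 = p.2 then 3 else 2) / (μ * R ^ 2) *
      (y ^ 2 * cos (((p.1 : ℝ) - p.2) / (2 * R ^ 2) * (log y - log μ))) =
      y ^ 2 / (μ * R ^ 2) * (2 * F + R) := by
    have e1 : (R : ℝ) = ∑ p ∈ range R ×ˢ range R, (if p.1 = p.2 then (1 : ℝ) else 0) := by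
      rw [sum_product]
      simp only [sum_ite_eq]
      rw [sum_congr rfl (fun x hx => if_pos hx)]
      simp
    conv_rhs => rw [e1]
    rw [hF, mul_sum, ← sum_add_distrib, mul_sum]
    rw [← e1]
    refine sum_congr rfl fun p _ => ?_
    rw [show ((p.1 : ℝ) - p.2) / (2 * R ^ 2) * (log y - log μ) = ((p.1 : ℝ) - p.2) * u by
      rw [hu]; ring]
    split_ifs with h
    · simp [h]
      ring
    · ring
  have F0 : 0 ≤ F := by
    have : F = (∑ r ∈ range R, cos (r * u)) ^ 2 + (∑ r ∈ range R, sin (r * u)) ^ 2 := by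
      rw [hF, sq, sq, sum_mul_sum, sum_mul_sum, sum_product, ← sum_add_distrib]
      refine sum_congr rfl fun r _ => ?_
      rw [← sum_add_distrib]
      refine sum_congr rfl fun r' _ => ?_
      rw [sub_mul, cos_sub]
    rw [this]
    positivity
  rw [e]
  refine max_le ?_ (by positivity)
  rcases le_total y μ with h | h
  · have : 0 ≤ y ^ 2 / (μ * R ^ 2) * (2 * F + R) := by positivity
    linarith
  have hy0 : 0 < y := hμ.trans_le h
  rw [div_mul_eq_mul_div, le_div_iff₀ (by positivity)]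
  rcases le_total (μ * R) y with h1 | h1
  · have : μ * R * (y * R) ≤ y * (y * R) := mul_le_mul_of_nonneg_right h1 (by positivity)
    nlinarith [mul_nonneg (sq_nonneg y) F0, mul_pos hμ hμ, sq_nonneg (μ * R)]
  · have t0 : 0 ≤ log y - log μ := sub_nonneg.2 (log_le_log hμ h)
    have t1 : log y - log μ ≤ R := by
      rw [← log_div hy0.ne' hμ.ne']
      have := log_le_sub_one_of_pos (div_pos hy0 hμ)
      have h2 : y / μ ≤ R := by rw [div_le_iff₀ hμ]; linarith
      linarith
    have u0 : 0 ≤ u := by positivity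
    have u1 : R * u ≤ 1 := by
      rw [hu, ← mul_div_assoc, div_le_one (by positivity)]
      nlinarith
    have hF2 : (R : ℝ) ^ 2 / 2 ≤ F := by
      have : ∀ p ∈ range R ×ˢ range R, (1 / 2 : ℝ) ≤ cos (((p.1 : ℝ) - p.2) * u) := by
        intro p hp
        obtain ⟨h1, h2⟩ := mem_product.1 hp
        have h3 : (p.1 : ℝ) ≤ R := by exact_mod_cast (mem_range.1 h1).le
        have h4 : (p.2 : ℝ) ≤ R := by exact_mod_cast (mem_range.1 h2).le
        have h5 : (0 : ℝ) ≤ p.1 := Nat.cast_nonneg _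
        have h6 : (0 : ℝ) ≤ p.2 := Nat.cast_nonneg _
        have h7 : (((p.1 : ℝ) - p.2) * u) ^ 2 ≤ 1 := by
          apply (sq_le_one_iff_abs_le_one _).2
          rw [abs_le]
          constructor <;> nlinarith
        linarith [one_sub_sq_div_two_le_cos (x := ((p.1 : ℝ) - p.2) * u)]
      have := sum_le_sum this
      simp only [sum_const, card_product, card_range, nsmul_eq_mul] at this
      push_cast at this
      linarith
    have : μ * (y * R ^ 2) ≤ y * (y * R ^ 2) := mul_le_mul_of_nonneg_right h (by positivity)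
    nlinarith [mul_le_mul_of_nonneg_left hF2 (sq_nonneg y), sq_nonneg (μ * R),
      mul_nonneg (sq_nonneg y) (le_trans zero_le_one hR')]

theorem anticonc {m R : ℕ} (hm : 0 < m) (hR : 0 < R) (J : ℕ) {μ x : ℝ} (hμ : 0 < μ)
    (hx : 0 ≤ x) : (V m)^[J] (fun y => max (y - μ) 0) x ≤
      x ^ 2 / μ * (DD m ^ 2) ^ J * (3 / R * (3 / 2) ^ J + 2 * (3 / 2 - 1 / (16000 * R ^ 4)) ^ J) := by
  have hR' : (1 : ℝ) ≤ R := by exact_mod_cast hR
  have h := iter_le hm (range R ×ˢ range R) (fun p => ((p.1 : ℝ) - p.2) / (2 * R ^ 2)) J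
    (fun y => max (y - μ) 0)
    (fun p => (((if p.1 = p.2 then 3 else 2) / (μ * R ^ 2) : ℝ) : ℂ) *
      Complex.exp (((-(((p.1 : ℝ) - p.2) / (2 * R ^ 2) * log μ) : ℝ) : ℂ) * Complex.I)) ?_ x hx
  · refine h.trans ((Complex.re_le_norm _).trans ?_)
    have hq : (0 : ℝ) ≤ 3 / 2 - 1 / (16000 * R ^ 4) := by
      have : (1 : ℝ) / (16000 * R ^ 4) ≤ 1 := by
        rw [div_le_one (by positivity)]
        nlinarith [one_le_pow₀ (n := 4) hR']
      linarith
    refine (norm_sum_le_of_le _ (n := fun p => x ^ 2 / (μ * R ^ 2) * (DD m ^ 2) ^ J *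
      ((if p.1 = p.2 then 3 * (3 / 2) ^ J else 0) + 2 * (3 / 2 - 1 / (16000 * R ^ 4)) ^ J))
      ?_).trans (le_of_eq ?_)
    · intro p hp
      obtain ⟨h1, h2⟩ := mem_product.1 hp
      have h3 : (p.1 : ℝ) ≤ R := by exact_mod_cast (mem_range.1 h1).le
      have h4 : (p.2 : ℝ) ≤ R := by exact_mod_cast (mem_range.1 h2).le
      have h5 : (0 : ℝ) ≤ p.1 := Nat.cast_nonneg _
      have h6 : (0 : ℝ) ≤ p.2 := Nat.cast_nonneg _
      have hτ : |((p.1 : ℝ) - p.2) / (2 * R ^ 2)| ≤ 1 / 2 := by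
        rw [abs_div, abs_of_pos (by positivity : (0 : ℝ) < 2 * R ^ 2),
          div_le_iff₀ (by positivity), abs_le]
        constructor <;> nlinarith
      have hφ := norm_phi_le hm hτ
      rw [norm_mul, norm_mul, norm_mul, norm_pow, norm_mul, norm_chi, norm_chi,
        Complex.norm_exp_ofReal_mul_I, Complex.norm_real, mul_pow]
      split_ifs with h
      · have : ‖phi m (((p.1 : ℝ) - p.2) / (2 * R ^ 2))‖ ^ J ≤ (3 / 2) ^ J :=
          pow_le_pow_left₀ (norm_nonneg _) (by linarith [sq_nonneg (((p.1 : ℝ) - p.2) / (2 * R ^ 2))]) J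
        rw [Real.norm_of_nonneg (by positivity)]
        calc _ = x ^ 2 / (μ * R ^ 2) * (DD m ^ 2) ^ J *
              (3 * ‖phi m (((p.1 : ℝ) - p.2) / (2 * R ^ 2))‖ ^ J + 0) := by ring
          _ ≤ _ := by gcongr; positivity
      · have h7 : (1 : ℝ) ≤ ((p.1 : ℝ) - p.2) ^ 2 := by
          have : (1 : ℤ) ≤ ((p.1 : ℤ) - p.2) ^ 2 := by
            have : (p.1 : ℤ) - p.2 ≠ 0 := by omega
            exact Int.add_one_le_of_lt (a := 0) (by positivity)
          exact_mod_cast this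
        have h8 : 1 / (16000 * (R : ℝ) ^ 4) ≤ (((p.1 : ℝ) - p.2) / (2 * R ^ 2)) ^ 2 / 4000 := by
          rw [div_pow, div_div, div_le_div_iff₀ (by positivity) (by positivity)]
          nlinarith [pow_pos (lt_of_lt_of_le one_pos hR') 4]
        have : ‖phi m (((p.1 : ℝ) - p.2) / (2 * R ^ 2))‖ ^ J ≤
            (3 / 2 - 1 / (16000 * R ^ 4)) ^ J :=
          pow_le_pow_left₀ (norm_nonneg _) (by linarith) J
        rw [Real.norm_of_nonneg (by positivity)]
        calc _ = x ^ 2 / (μ * R ^ 2) * (DD m ^ 2) ^ J *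
              (0 + 2 * ‖phi m (((p.1 : ℝ) - p.2) / (2 * R ^ 2))‖ ^ J) := by ring
          _ ≤ _ := by gcongr
    · rw [← mul_sum, sum_add_distrib, sum_product]
      simp only [sum_ite_eq]
      rw [sum_congr rfl (fun x hx => if_pos hx)]
      simp only [sum_const, card_product, card_range, nsmul_eq_mul]
      push_cast
      field_simp
  · intro y _
    refine (majorant hR hμ y).trans (le_of_eq ?_)
    rw [Complex.re_sum]
    refine sum_congr rfl fun p _ => ?_
    rw [mul_assoc, Complex.re_ofReal_mul]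
    congr 1
    rw [chi, mul_left_comm, ← Complex.exp_add, ← add_mul, ← Complex.ofReal_add,
      ← Complex.ofReal_pow, Complex.re_ofReal_mul, Complex.exp_ofReal_mul_I_re]
    congr 2
    ring

end Pool.Agent.P.MP_f33f0c_an
end

-- part Pool.Agent.P.MP_f33f0c_an.Cube
section

/-! Trigonometric polynomials with spectrum in a lacunary Hilbert cube. -/

set_option autoImplicit false

namespace Pool.Agent.P.MP_f33f0c_an

open Real Finset

/-- The exponentials. -/
noncomputable def ee (n : ℤ) (x : ℝ) : ℂ :=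
  Complex.exp (2 * (Real.pi : ℂ) * Complex.I * (n : ℂ) * (x : ℂ))

theorem ee_eq (n : ℤ) (x : ℝ) : ee n x = Complex.exp (((2 * π * n * x : ℝ) : ℂ) * Complex.I) := by
  unfold ee
  congr 1
  push_cast
  ring

theorem norm_ee (n : ℤ) (x : ℝ) : ‖ee n x‖ = 1 := by
  rw [ee_eq, Complex.norm_exp_ofReal_mul_I]

theorem ee_add_left (k l : ℤ) (x : ℝ) : ee (k + l) x = ee k x * ee l x := by
  unfold ee
  rw [← Complex.exp_add]
  congr 1
  push_cast
  ring

theorem ee_add_right (k : ℤ) (x y : ℝ) : ee k (x + y) = ee k x * ee k y := by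
  unfold ee
  rw [← Complex.exp_add]
  congr 1
  push_cast
  ring

theorem ee_eq_one {k j : ℤ} {y : ℝ} (h : k * y = j) : ee k y = 1 := by
  unfold ee
  have h' : (k : ℂ) * (y : ℂ) = (j : ℂ) := by exact_mod_cast h
  rw [mul_assoc, h', mul_comm]
  exact Complex.exp_int_mul_two_pi_mul_I j

theorem ee_periodic (k : ℤ) (x : ℝ) : ee k (x + 1) = ee k x := by
  rw [ee_add_right, ee_eq_one (j := k) (mul_one _), mul_one]

@[fun_prop] theorem continuous_ee (k : ℤ) : Continuous (ee k) := by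
  unfold ee
  fun_prop

theorem conj_ee (k : ℤ) (x : ℝ) : (starRingEnd ℂ) (ee k x) = ee (-k) x := by
  rw [ee_eq, ee_eq, ← Complex.exp_conj, map_mul, Complex.conj_ofReal, Complex.conj_I]
  congr 1
  push_cast
  ring

theorem integral_ee (k : ℤ) : ∫ x in (0 : ℝ)..1, ee k x = if k = 0 then 1 else 0 := by
  split_ifs with h
  · simp [h, ee]
  · have hc : 2 * (Real.pi : ℂ) * Complex.I * (k : ℂ) ≠ 0 := by
      simp [h, pi_ne_zero]
    have := integral_exp_mul_complex (a := 0) (b := 1) hc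
    unfold ee
    rw [this]
    have h1 : ee k 1 = 1 := ee_eq_one (j := k) (mul_one _)
    unfold ee at h1
    rw [h1]
    simp

/-- Trigonometric polynomials. -/
noncomputable def poly (S : Finset ℤ) (a : ℤ → ℂ) (x : ℝ) : ℂ := ∑ k ∈ S, a k * ee k x

@[fun_prop] theorem continuous_poly (S : Finset ℤ) (a : ℤ → ℂ) : Continuous (poly S a) := by
  unfold poly
  fun_prop

theorem poly_periodic (S : Finset ℤ) (a : ℤ → ℂ) (x : ℝ) : poly S a (x + 1) = poly S a x := by
  simp [poly, ee_periodic]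

theorem parseval (S : Finset ℤ) (a : ℤ → ℂ) :
    ∫ x in (0 : ℝ)..1, ‖poly S a x‖ ^ 2 = ∑ k ∈ S, ‖a k‖ ^ 2 := by
  have h : ∀ x, ((‖poly S a x‖ ^ 2 : ℝ) : ℂ) =
      ∑ k ∈ S, ∑ l ∈ S, a k * (starRingEnd ℂ) (a l) * ee (k - l) x := by
    intro x
    rw [← Complex.normSq_eq_norm_sq, ← Complex.mul_conj, poly, map_sum, sum_mul_sum]
    refine sum_congr rfl fun k _ => sum_congr rfl fun l _ => ?_
    rw [map_mul, conj_ee, sub_eq_add_neg, ee_add_left]
    ring
  apply Complex.ofReal_injective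
  rw [← intervalIntegral.integral_ofReal]
  simp only [h]
  rw [intervalIntegral.integral_finsetSum (fun k _ => Continuous.intervalIntegrable
    (by fun_prop) _ _)]
  push_cast
  refine sum_congr rfl fun k hk => ?_
  rw [intervalIntegral.integral_finsetSum (fun l _ => Continuous.intervalIntegrable
    (by fun_prop) _ _)]
  simp only [intervalIntegral.integral_const_mul, integral_ee, sub_eq_zero, mul_ite, mul_one,
    mul_zero, sum_ite_eq, hk, if_true, Complex.mul_conj']

theorem sq_integral_le {h : ℝ → ℝ} (hc : Continuous h) :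
    (∫ x in (0 : ℝ)..1, h x) ^ 2 ≤ ∫ x in (0 : ℝ)..1, h x ^ 2 := by
  set c := ∫ x in (0 : ℝ)..1, h x with hcdef
  have h0 : 0 ≤ ∫ x in (0 : ℝ)..1, (h x ^ 2 - 2 * c * h x + c ^ 2) :=
    intervalIntegral.integral_nonneg zero_le_one fun x _ => by nlinarith [sq_nonneg (h x - c)]
  rw [intervalIntegral.integral_add (Continuous.intervalIntegrable (by fun_prop) _ _)
    (Continuous.intervalIntegrable (by fun_prop) _ _),
    intervalIntegral.integral_sub (Continuous.intervalIntegrable (by fun_prop) _ _)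
    (Continuous.intervalIntegrable (by fun_prop) _ _), intervalIntegral.integral_const_mul] at h0
  simp only [intervalIntegral.integral_const, sub_zero, smul_eq_mul, one_mul, ← hcdef] at h0
  nlinarith

theorem integral_avg {N : ℕ} (hN : 0 < N) {Φ : ℝ → ℝ} (hc : Continuous Φ)
    (hp : ∀ x, Φ (x + 1) = Φ x) (τ : ℕ → ℝ) :
    ∫ x in (0 : ℝ)..1, Φ x = ∫ x in (0 : ℝ)..1, (1 / (N : ℝ)) * ∑ s ∈ range N, Φ (x + τ s) := by
  have hN' : (N : ℝ) ≠ 0 := by exact_mod_cast hN.ne'
  rw [intervalIntegral.integral_const_mul, intervalIntegral.integral_finsetSum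
    (fun k _ => Continuous.intervalIntegrable (by fun_prop) _ _)]
  have : ∀ s ∈ range N, ∫ x in (0 : ℝ)..1, Φ (x + τ s) = ∫ x in (0 : ℝ)..1, Φ x := by
    intro s _
    rw [intervalIntegral.integral_comp_add_right Φ (τ s)]
    have := Function.Periodic.intervalIntegral_add_eq (f := Φ) (T := 1) hp (τ s) 0
    simpa [add_comm] using this
  rw [sum_congr rfl this]
  simp only [sum_const, card_range, nsmul_eq_mul]
  field_simp

/-- The lacunary Hilbert cube. -/
def cube (M : ℕ) : ℕ → ℤ → Finset ℤ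
  | 0, _ => {0}
  | J + 1, n => cube M J (n * M) ∪ (cube M J (n * M)).image (· + n)

theorem dvd_of_mem_cube {M J : ℕ} : ∀ {n k : ℤ}, k ∈ cube M J n → n ∣ k := by
  induction J with
  | zero =>
    intro n k h
    rw [mem_singleton.1 h]
    exact dvd_zero n
  | succ J ih =>
    intro n k h
    rcases mem_union.1 h with h | h
    · exact (dvd_mul_right n M).trans (ih h)
    · obtain ⟨l, hl, rfl⟩ := mem_image.1 h
      exact dvd_add ((dvd_mul_right n M).trans (ih hl)) dvd_rfl

theorem add_not_mem_cube {M J : ℕ} (hM : 2 ≤ M) {n k : ℤ} (hn : n ≠ 0)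
    (hk : k ∈ cube M J (n * M)) : k + n ∉ cube M J (n * M) := by
  intro h
  have h1 : n * M ∣ n * 1 := by
    rw [mul_one]
    exact (dvd_add_right (dvd_of_mem_cube hk)).1 (dvd_of_mem_cube h)
  have h2 := Int.le_of_dvd one_pos ((mul_dvd_mul_iff_left hn).1 h1)
  omega

theorem sum_cube_succ {E : Type} [AddCommMonoid E] {M J : ℕ} (hM : 2 ≤ M) {n : ℤ} (hn : n ≠ 0)
    (F : ℤ → E) : ∑ k ∈ cube M (J + 1) n, F k =
      ∑ k ∈ cube M J (n * M), F k + ∑ k ∈ cube M J (n * M), F (k + n) := by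
  rw [cube, sum_union, sum_image (fun a _ b _ h => add_right_cancel h)]
  rw [disjoint_left]
  intro k hk h
  obtain ⟨l, hl, rfl⟩ := mem_image.1 h
  exact add_not_mem_cube hM hn hl hk

theorem poly_cube_succ {M J : ℕ} (hM : 2 ≤ M) {n : ℤ} (hn : n ≠ 0) (a : ℤ → ℂ) (x : ℝ) :
    poly (cube M (J + 1) n) a x = poly (cube M J (n * M)) a x +
      poly (cube M J (n * M)) (fun k => a (k + n)) x * ee n x := by
  simp only [poly, sum_cube_succ hM hn, ee_add_left, sum_mul, mul_assoc]

theorem poly_shift {M J : ℕ} {n : ℤ} (hn : n ≠ 0) (a : ℤ → ℂ) (x : ℝ) (s : ℕ) :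
    poly (cube M J n) a (x + s / n) = poly (cube M J n) a x := by
  refine sum_congr rfl fun k hk => ?_
  obtain ⟨j, rfl⟩ := dvd_of_mem_cube hk
  have : (n : ℝ) ≠ 0 := by exact_mod_cast hn
  rw [ee_add_right, ee_eq_one (y := s / n) (j := j * s) (by push_cast; field_simp), mul_one]

theorem ee_shift {m : ℕ} (hm : 0 < m) {n : ℤ} (hn : n ≠ 0) (x : ℝ) (s : ℕ) :
    ee n (x + s / ((n * ((4 * m : ℕ) : ℤ) : ℤ) : ℝ)) =
      ee n x * Complex.exp (((s * al m : ℝ) : ℂ) * Complex.I) := by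
  have h1 : (n : ℝ) ≠ 0 := by exact_mod_cast hn
  have h2 : (m : ℝ) ≠ 0 := by exact_mod_cast hm.ne'
  rw [ee_add_right, ee_eq n (s / _)]
  congr 4
  unfold al
  push_cast
  field_simp
  ring

theorem norm_add_mul_sq (u v z : ℂ) (hz : ‖z‖ = 1) :
    ‖u + v * z‖ ^ 2 = ‖u‖ ^ 2 + ‖v‖ ^ 2 + (2 * (starRingEnd ℂ) u * v * z).re := by
  have h : z.re * z.re + z.im * z.im = 1 := by
    rw [← Complex.normSq_apply, Complex.normSq_eq_norm_sq, hz, one_pow]
  simp only [Complex.sq_norm, Complex.normSq_apply, Complex.add_re, Complex.add_im,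
    Complex.mul_re, Complex.mul_im, Complex.conj_re, Complex.conj_im, Complex.re_ofNat,
    Complex.im_ofNat]
  linear_combination (v.re * v.re + v.im * v.im) * h

theorem re_mul_exp (β : ℂ) (t : ℝ) :
    (β * Complex.exp ((t : ℂ) * Complex.I)).re = ‖β‖ * cos (Complex.arg β + t) := by
  conv_lhs => rw [← Complex.norm_mul_exp_arg_mul_I β]
  rw [mul_assoc, ← Complex.exp_add, ← add_mul, ← Complex.ofReal_add, Complex.re_ofReal_mul,
    Complex.exp_ofReal_mul_I_re]

theorem dominate {m : ℕ} (hm : 0 < m) (J : ℕ) : ∀ (ι : Type) [Fintype ι] (a : ι → ℤ → ℂ) (n : ℤ)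
    (f : ℝ → ℝ), n ≠ 0 → ConvexOn ℝ Set.univ f → Monotone f → Continuous f →
    ∫ x in (0 : ℝ)..1, f (∑ i, ‖poly (cube (4 * m) J n) (a i) x‖ ^ 2) ≤
      (V m)^[J] f (∑ i, ∑ k ∈ cube (4 * m) J n, ‖a i k‖ ^ 2) := by
  have hM : 2 ≤ 4 * m := by omega
  induction J with
  | zero =>
    intro ι _ a n f _ _ _ _
    simp [cube, poly, norm_ee]
  | succ J ih =>
    intro ι _ a n f hn h1 h2 h3
    have hn' : n * ((4 * m : ℕ) : ℤ) ≠ 0 := mul_ne_zero hn (by exact_mod_cast (by omega))
    have IH := ih (ι ⊕ ι) (Sum.elim a (fun i k => a i (k + n))) _ (V m f) hn' (V_convex h1)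
      (V_mono hm h2) (V_cont h3)
    simp only [Fintype.sum_sum_type, Sum.elim_inl, Sum.elim_inr] at IH
    rw [Function.iterate_succ_apply]
    simp only [sum_cube_succ hM hn, sum_add_distrib]
    refine le_trans ?_ IH
    rw [integral_avg (N := 4 * m) (by omega) (by fun_prop) (fun x => by simp [poly_periodic])
      (fun s => s / ((n * ((4 * m : ℕ) : ℤ) : ℤ) : ℝ))]
    refine intervalIntegral.integral_mono_on zero_le_one
      (Continuous.intervalIntegrable (by fun_prop) _ _)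
      (Continuous.intervalIntegrable ((V_cont h3).comp (by fun_prop)) _ _) fun x _ => ?_
    set u := fun i => poly (cube (4 * m) J (n * ((4 * m : ℕ) : ℤ))) (a i) x with hu
    set v := fun i => poly (cube (4 * m) J (n * ((4 * m : ℕ) : ℤ))) (fun k => a i (k + n)) x
      with hv
    set β := (∑ i, 2 * (starRingEnd ℂ) (u i) * v i) * ee n x with hβ
    have hb : ‖β‖ ≤ ∑ i, ‖u i‖ ^ 2 + ∑ i, ‖v i‖ ^ 2 := by
      rw [hβ, norm_mul, norm_ee, mul_one, ← sum_add_distrib]
      refine norm_sum_le_of_le _ fun i _ => ?_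
      rw [norm_mul, norm_mul, Complex.norm_conj, Complex.norm_ofNat]
      nlinarith [sq_nonneg (‖u i‖ - ‖v i‖)]
    have := step_le hm h1 h2 (norm_nonneg β) hb (Complex.arg β)
    refine le_trans (le_of_eq ?_) this
    rw [show (((4 * m : ℕ) : ℝ)) = 4 * (m : ℝ) by push_cast; rfl]
    congr 1
    refine sum_congr rfl fun s _ => ?_
    congr 1
    have e := fun i => poly_cube_succ (J := J) hM hn (a i)
      (x + s / ((n * ((4 * m : ℕ) : ℤ) : ℤ) : ℝ))
    simp only [poly_shift hn', ee_shift hm hn] at e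
    have hz : ‖ee n x * Complex.exp (((s * al m : ℝ) : ℂ) * Complex.I)‖ = 1 := by
      rw [norm_mul, norm_ee, Complex.norm_exp_ofReal_mul_I, one_mul]
    rw [← re_mul_exp, hβ, mul_assoc _ (ee n x), sum_mul, Complex.re_sum, ← sum_add_distrib,
      ← sum_add_distrib]
    refine sum_congr rfl fun i _ => ?_
    rw [e i]
    exact norm_add_mul_sq (u i) (v i) _ hz

theorem strong_lower {m : ℕ} (hm : 0 < m) (J : ℕ) : ∀ n : ℤ, n ≠ 0 →
    ∫ x in (0 : ℝ)..1, ‖poly (cube (4 * m) J n) (fun _ => 1) x‖ ^ 4 = 6 ^ J := by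
  have hM : 2 ≤ 4 * m := by omega
  have hm' : (m : ℝ) ≠ 0 := by exact_mod_cast hm.ne'
  induction J with
  | zero =>
    intro n _
    simp [cube, poly, norm_ee]
  | succ J ih =>
    intro n hn
    have hn' : n * ((4 * m : ℕ) : ℤ) ≠ 0 := mul_ne_zero hn (by exact_mod_cast (by omega))
    rw [pow_succ', ← ih _ hn', ← intervalIntegral.integral_const_mul,
      integral_avg (N := 4 * m) (by omega) (by fun_prop) (fun x => by simp [poly_periodic])
      (fun s => s / ((n * ((4 * m : ℕ) : ℤ) : ℤ) : ℝ))]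
    refine intervalIntegral.integral_congr fun x _ => ?_
    set u := poly (cube (4 * m) J (n * ((4 * m : ℕ) : ℤ))) (fun _ => 1) x with hu
    have e : ∀ s ∈ range (4 * m), ‖poly (cube (4 * m) (J + 1) n) (fun _ => 1)
        (x + s / ((n * ((4 * m : ℕ) : ℤ) : ℤ) : ℝ))‖ ^ 4 =
        4 * ‖u‖ ^ 4 * (1 + cos (Complex.arg (ee n x) + s * al m)) ^ 2 := by
      intro s _
      rw [poly_cube_succ hM hn, poly_shift hn', ee_shift hm hn, ← hu]
      have hz : ‖ee n x * Complex.exp (((s * al m : ℝ) : ℂ) * Complex.I)‖ = 1 := by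
        rw [norm_mul, norm_ee, Complex.norm_exp_ofReal_mul_I, one_mul]
      have h1 := norm_add_mul_sq 1 1 _ hz
      have h2 := re_mul_exp (ee n x) (s * al m)
      rw [norm_ee, one_mul] at h2
      simp only [map_one, mul_one, one_mul, norm_one, one_pow] at h1
      rw [show (2 : ℂ) = ((2 : ℝ) : ℂ) by simp, Complex.re_ofReal_mul, h2] at h1
      rw [← mul_one_add, norm_mul, mul_pow, show 4 = 2 * 2 by rfl, pow_mul (‖1 + _‖), h1]
      ring
    rw [sum_congr rfl e, ← mul_sum, sum_sq hm]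
    push_cast
    field_simp

theorem rudin_shapiro {M : ℕ} (hM : 2 ≤ M) (J : ℕ) : ∀ n : ℤ, n ≠ 0 → ∃ σ τ : ℤ → ℂ,
    (∀ k, σ k = 1 ∨ σ k = -1) ∧ (∀ k, τ k = 1 ∨ τ k = -1) ∧
    ∀ x, ‖poly (cube M J n) σ x‖ ^ 2 + ‖poly (cube M J n) τ x‖ ^ 2 = 2 * 2 ^ J := by
  induction J with
  | zero =>
    intro n _
    exact ⟨fun _ => 1, fun _ => 1, fun _ => Or.inl rfl, fun _ => Or.inl rfl, fun x => by
      simp [cube, poly, norm_ee]; norm_num⟩
  | succ J ih =>
    intro n hn
    have hn' : n * (M : ℤ) ≠ 0 := mul_ne_zero hn (by exact_mod_cast (by omega))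
    obtain ⟨σ, τ, h1, h2, h3⟩ := ih _ hn'
    refine ⟨fun k => if k ∈ cube M J (n * M) then σ k else τ (k - n),
      fun k => if k ∈ cube M J (n * M) then σ k else -τ (k - n), fun k => ?_, fun k => ?_,
      fun x => ?_⟩
    · dsimp only
      split_ifs
      · exact h1 k
      · exact h2 _
    · dsimp only
      split_ifs
      · exact h1 k
      · rcases h2 (k - n) with h | h <;> simp [h]
    · rw [poly_cube_succ hM hn, poly_cube_succ hM hn]
      have a1 : ∀ g : ℤ → ℂ, poly (cube M J (n * M))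
          (fun k => if k ∈ cube M J (n * M) then σ k else g k) x = poly (cube M J (n * M)) σ x :=
        fun g => sum_congr rfl fun k hk => by simp only [if_pos hk]
      have a2 : poly (cube M J (n * M))
          (fun k => if k + n ∈ cube M J (n * M) then σ (k + n) else τ (k + n - n)) x =
          poly (cube M J (n * M)) τ x :=
        sum_congr rfl fun k hk => by
          simp only [if_neg (add_not_mem_cube hM hn hk), add_sub_cancel_right]
      have a3 : poly (cube M J (n * M))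
          (fun k => if k + n ∈ cube M J (n * M) then σ (k + n) else -τ (k + n - n)) x =
          -poly (cube M J (n * M)) τ x := by
        rw [poly, poly, ← sum_neg_distrib]
        exact sum_congr rfl fun k hk => by
          simp only [if_neg (add_not_mem_cube hM hn hk), add_sub_cancel_right, neg_mul]
      rw [a1, a1, a2, a3, norm_add_mul_sq _ _ _ (norm_ee n x), norm_add_mul_sq _ _ _ (norm_ee n x),
        norm_neg, mul_neg, neg_mul, Complex.neg_re, pow_succ (2 : ℝ) J]
      linarith [h3 x]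

end Pool.Agent.P.MP_f33f0c_an
end

-- part Pool.Agent.P.MP_f33f0c_an.Glue
section

/-! Blocks and gluing: a multiplier of weak type `(4,4)` that is not of strong type `(4,4)`. -/

set_option autoImplicit false

namespace Pool.Agent.P.MP_f33f0c_an

open Real Finset MeasureTheory

theorem markov {h : ℝ → ℝ} (hc : Continuous h) (h0 : ∀ x, 0 ≤ h x) {ε : ℝ} (hε : 0 < ε)
    (P : ℝ → Prop) (hP : ∀ x, P x → ε ≤ h x) :
    volume {x : ℝ | x ∈ Set.Icc (0 : ℝ) 1 ∧ P x} ≤
      ENNReal.ofReal ((∫ x in (0 : ℝ)..1, h x) / ε) := by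
  have h1 := mul_meas_ge_le_integral_of_nonneg (μ := volume.restrict (Set.Icc (0 : ℝ) 1)) (f := h)
    (Filter.Eventually.of_forall h0) hc.integrableOn_Icc ε
  rw [intervalIntegral.integral_of_le zero_le_one, ← integral_Icc_eq_integral_Ioc]
  have h2 : volume {x : ℝ | x ∈ Set.Icc (0 : ℝ) 1 ∧ P x} ≤
      volume.restrict (Set.Icc (0 : ℝ) 1) {x | ε ≤ h x} := by
    rw [Measure.restrict_apply' measurableSet_Icc]
    exact measure_mono fun x hx => ⟨hP x hx.2, hx.1⟩
  refine h2.trans ?_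
  rw [← ofReal_measureReal (measure_ne_top _ _)]
  apply ENNReal.ofReal_le_ofReal
  rw [le_div_iff₀ hε, mul_comm]
  exact h1

theorem exists_DD (J : ℕ) : ∃ m : ℕ, 0 < m ∧ (DD m ^ 2) ^ J ≤ 2 := by
  have h1 : Filter.Tendsto (fun m : ℕ => al m) Filter.atTop (nhds 0) := by
    have := tendsto_const_div_atTop_nhds_zero_nat (π / 2)
    refine this.congr fun m => ?_
    unfold al
    ring
  have h2 : ContinuousAt (fun y : ℝ => ((1 / cos (y / 2)) ^ 2) ^ J) 0 := by
    refine ContinuousAt.pow (ContinuousAt.pow (ContinuousAt.div continuousAt_const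
      (by fun_prop) (by simp)) _) _
  have h3 := h2.tendsto.comp h1
  simp only [zero_div, cos_zero, div_one, one_pow] at h3
  obtain ⟨m, hm⟩ := ((h3.eventually (ge_mem_nhds one_lt_two)).and
    (Filter.eventually_gt_atTop 0)).exists
  exact ⟨m, hm.2, hm.1⟩

theorem exists_RJ {δ : ℝ} (hδ : 0 < δ) : ∃ R J : ℕ, 0 < R ∧
    3 / R * (3 / 2 : ℝ) ^ J + 2 * (3 / 2 - 1 / (16000 * R ^ 4)) ^ J ≤ δ * (3 / 2) ^ J := by
  obtain ⟨R, hR⟩ := exists_nat_gt (6 / δ)
  have hR0 : (0 : ℝ) < R := lt_trans (by positivity) hR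
  have hR1 : (1 : ℝ) ≤ R := by
    have : 0 < R := by exact_mod_cast hR0
    exact_mod_cast this
  have hq : (1 : ℝ) - 1 / (24000 * R ^ 4) < 1 := by
    have : (0 : ℝ) < 1 / (24000 * R ^ 4) := by positivity
    linarith
  obtain ⟨J, hJ⟩ := exists_pow_lt_of_lt_one (by positivity : 0 < δ / 4) hq
  refine ⟨R, J, by exact_mod_cast hR0, ?_⟩
  have e : (3 / 2 - 1 / (16000 * R ^ 4) : ℝ) = (1 - 1 / (24000 * R ^ 4)) * (3 / 2) := by
    field_simp
    ring
  have h3 : (3 : ℝ) / R ≤ δ / 2 := by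
    rw [div_lt_iff₀ hδ] at hR
    rw [div_le_iff₀ hR0]
    linarith
  rw [e, mul_pow, ← mul_assoc, ← add_mul]
  exact mul_le_mul_of_nonneg_right (by linarith) (by positivity)

theorem poly_image (Q : Finset ℤ) (o : ℤ) (a : ℤ → ℂ) (x : ℝ) :
    ‖poly (Q.image (· + o)) a x‖ = ‖poly Q (fun k => a (k + o)) x‖ := by
  have : poly (Q.image (· + o)) a x = poly Q (fun k => a (k + o)) x * ee o x := by
    rw [poly, sum_image (fun a _ b _ h => add_right_cancel h)]
    simp only [poly, ee_add_left, sum_mul, mul_assoc]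
  rw [this, norm_mul, norm_ee, mul_one]

theorem block {ε K : ℝ} (hε : 0 < ε) (hK : 0 < K) {n : ℤ} (hn : n ≠ 0) (o : ℤ) :
    ∃ (T : Finset ℤ) (μ : ℤ → ℂ), (∀ k ∈ T, n ∣ k - o) ∧ (∀ k, k ∉ T → μ k = 0) ∧
    (∀ (S : Finset ℤ) (c : ℤ → ℂ) (t : ℝ), 0 < t →
      volume {x : ℝ | x ∈ Set.Icc (0 : ℝ) 1 ∧ t < ‖poly S (fun k => μ k * c k) x‖} ≤
        ENNReal.ofReal (ε * (∑ k ∈ S, ‖c k‖ ^ 2) ^ 2 / t ^ 4)) ∧
    ∃ (c : ℤ → ℂ) (B : ℝ), 0 < B ∧ ∫ x in (0 : ℝ)..1, ‖poly T c x‖ ^ 4 ≤ B ∧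
      K * B ≤ ∫ x in (0 : ℝ)..1, ‖poly T (fun k => μ k * c k) x‖ ^ 4 := by
  obtain ⟨R, J, hR, hRJ⟩ := exists_RJ (δ := ε / (32 * K)) (by positivity)
  obtain ⟨m, hm, hD⟩ := exists_DD J
  obtain ⟨σ, τ, hσ, -, hRS⟩ := rudin_shapiro (M := 4 * m) (by omega) J n hn
  set Q := cube (4 * m) J n with hQ
  set κ : ℝ := √(√(4 * K / (3 / 2) ^ J)) with hκ
  have hκ0 : 0 ≤ κ := sqrt_nonneg _
  have hκ4 : κ ^ 4 = 4 * K / (3 / 2) ^ J := by
    rw [show 4 = 2 * 2 by rfl, pow_mul, hκ, sq_sqrt (sqrt_nonneg _), sq_sqrt (by positivity)]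
  have hσn : ∀ k, ‖σ k‖ = 1 := fun k => by rcases hσ k with h | h <;> simp [h]
  have hσ2 : ∀ k, σ k * σ k = 1 := fun k => by rcases hσ k with h | h <;> simp [h]
  set T := Q.image (· + o) with hT
  refine ⟨T, fun k => if k ∈ T then κ * σ (k - o) else 0, ?_, fun k hk => if_neg hk, ?_,
    fun k => σ (k - o), 4 * 4 ^ J, by positivity, ?_, ?_⟩
  · intro k hk
    obtain ⟨l, hl, rfl⟩ := mem_image.1 hk
    rw [add_sub_cancel_right]
    exact dvd_of_mem_cube hl
  · intro S c t ht
    set b : ℤ → ℂ := fun k => if k ∈ S then κ * σ (k - o) * c k else 0 with hb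
    have e1 : ∀ x, poly S (fun k => (if k ∈ T then κ * σ (k - o) else 0) * c k) x =
        poly T b x := by
      intro x
      simp only [poly, hb, ite_mul, zero_mul, sum_ite_mem, inter_comm]
    have e2 : ∑ k ∈ Q, ‖b (k + o)‖ ^ 2 ≤ κ ^ 2 * ∑ k ∈ S, ‖c k‖ ^ 2 := by
      rw [← sum_image (g := (· + o)) (f := fun k => ‖b k‖ ^ 2)
        (fun a _ b _ h => add_right_cancel h), ← hT, mul_sum]
      calc ∑ k ∈ T, ‖b k‖ ^ 2 = ∑ k ∈ T, if k ∈ S then κ ^ 2 * ‖c k‖ ^ 2 else 0 := by
            refine sum_congr rfl fun k _ => ?_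
            simp only [hb]
            split_ifs
            · rw [norm_mul, norm_mul, hσn, Complex.norm_real, Real.norm_of_nonneg hκ0]
              ring
            · simp
        _ ≤ _ := by
            rw [sum_ite_mem]
            exact sum_le_sum_of_subset_of_nonneg inter_subset_right fun _ _ _ => by positivity
    have hf1 : ConvexOn ℝ Set.univ (fun y : ℝ => max (y - t ^ 2 / 2) 0) :=
      ((convexOn_id convex_univ).sub (concaveOn_const _ convex_univ)).sup
        (convexOn_const 0 convex_univ)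
    have hf2 : Monotone (fun y : ℝ => max (y - t ^ 2 / 2) 0) := fun y z h => by
      dsimp only
      gcongr
    have d := dominate hm J Unit (fun _ k => b (k + o)) n _ hn hf1 hf2 (by fun_prop)
    simp only [univ_unique, sum_singleton, ← hQ] at d
    have a := anticonc hm hR J (μ := t ^ 2 / 2) (x := ∑ k ∈ Q, ‖b (k + o)‖ ^ 2) (by positivity)
      (by positivity)
    refine (markov (h := fun x => max (‖poly Q (fun k => b (k + o)) x‖ ^ 2 - t ^ 2 / 2) 0)
      (by fun_prop) (fun x => le_max_right _ _) (ε := t ^ 2 / 2) (by positivity) _ ?_).trans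
      (ENNReal.ofReal_le_ofReal ?_)
    · intro x hx
      rw [e1, hT, poly_image] at hx
      refine le_max_of_le_left ?_
      nlinarith
    · rw [div_le_iff₀ (by positivity)]
      refine (d.trans a).trans ?_
      set X := ∑ k ∈ S, ‖c k‖ ^ 2 with hX
      have hq : (0 : ℝ) ≤ 3 / 2 - 1 / (16000 * R ^ 4) := by
        have hR' : (1 : ℝ) ≤ R := by exact_mod_cast hR
        have : (1 : ℝ) / (16000 * R ^ 4) ≤ 1 := by
          rw [div_le_one (by positivity)]
          nlinarith [one_le_pow₀ (n := 4) hR']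
        linarith
      calc _ ≤ (κ ^ 2 * X) ^ 2 / (t ^ 2 / 2) * 2 * (ε / (32 * K) * (3 / 2) ^ J) := by
            gcongr
        _ = κ ^ 4 * (3 / 2) ^ J * (X ^ 2 / t ^ 2 * ε / (8 * K)) := by
            field_simp
            ring
        _ = _ := by
            rw [hκ4]
            field_simp
            ring
  · have : ∀ x ∈ Set.Icc (0 : ℝ) 1, ‖poly T (fun k => σ (k - o)) x‖ ^ 4 ≤ 4 * 4 ^ J := by
      intro x _
      rw [hT, poly_image]
      simp only [add_sub_cancel_right]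
      have h1 : ‖poly Q σ x‖ ^ 2 ≤ 2 * 2 ^ J := by
        linarith [hRS x, sq_nonneg ‖poly Q τ x‖]
      calc ‖poly Q σ x‖ ^ 4 = (‖poly Q σ x‖ ^ 2) ^ 2 := by ring
        _ ≤ (2 * 2 ^ J) ^ 2 := by gcongr
        _ = _ := by rw [mul_pow, ← pow_mul, mul_comm J, pow_mul]; norm_num
    simpa using intervalIntegral.integral_mono_on (μ := volume) zero_le_one
      (Continuous.intervalIntegrable (by fun_prop) _ _)
      (Continuous.intervalIntegrable continuous_const _ _) this
  · have : ∀ x, ‖poly T (fun k => (if k ∈ T then κ * σ (k - o) else 0) * σ (k - o)) x‖ ^ 4 =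
        κ ^ 4 * ‖poly Q (fun _ => 1) x‖ ^ 4 := by
      intro x
      have e : poly T (fun k => (if k ∈ T then κ * σ (k - o) else 0) * σ (k - o)) x =
          κ * poly T (fun _ => 1) x := by
        rw [poly, poly, mul_sum]
        refine sum_congr rfl fun k hk => ?_
        rw [if_pos hk, mul_assoc (κ : ℂ), hσ2, mul_assoc]
      rw [e, norm_mul, hT, poly_image, mul_pow, Complex.norm_real, Real.norm_of_nonneg hκ0]
    simp only [this]
    rw [intervalIntegral.integral_const_mul, hQ, strong_lower hm J n hn, hκ4,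
      show (6 : ℝ) = 3 / 2 * 4 by norm_num, mul_pow]
    apply le_of_eq
    field_simp

theorem main : ∃ m : ℤ → ℂ, (∀ (S : Finset ℤ) (c : ℤ → ℂ) (t : ℝ), 0 < t →
      volume {x : ℝ | x ∈ Set.Icc (0 : ℝ) 1 ∧ t < ‖poly S (fun k => m k * c k) x‖} ≤
        ENNReal.ofReal (1 * (∫ x in (0 : ℝ)..1, ‖poly S c x‖ ^ 4) / t ^ 4)) ∧
    ∀ C : ℝ, ∃ (S : Finset ℤ) (c : ℤ → ℂ), C * ∫ x in (0 : ℝ)..1, ‖poly S c x‖ ^ 4 <
      ∫ x in (0 : ℝ)..1, ‖poly S (fun k => m k * c k) x‖ ^ 4 := by
  have hb := fun i : ℕ => block (ε := 1 / 32 ^ (i + 1)) (K := i + 1) (by positivity)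
    (by positivity) (n := 2 ^ (i + 1)) (by positivity) (2 ^ i)
  choose T μ h1 h2 h3 h4 using hb
  have lt : ∀ i j k, i < j → k ∈ T i → k ∉ T j := by
    intro i j k hij hi hj
    have a1 : (2 : ℤ) ^ (i + 1) ∣ k - 2 ^ j := (pow_dvd_pow 2 (by omega)).trans (h1 j k hj)
    have a2 : (2 : ℤ) ^ (i + 1) ∣ 2 ^ j := pow_dvd_pow 2 hij
    have a3 : (2 : ℤ) ^ (i + 1) ∣ 2 ^ i := by
      have := dvd_sub (dvd_add a1 a2) (h1 i k hi)
      rwa [show k - 2 ^ j + 2 ^ j - (k - 2 ^ i) = (2 : ℤ) ^ i by ring] at this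
    have := Int.le_of_dvd (by positivity) a3
    have h : (0 : ℤ) < 2 ^ i := by positivity
    rw [pow_succ] at this
    linarith
  have uniq : ∀ i j k, k ∈ T i → k ∈ T j → i = j := by
    intro i j k hi hj
    rcases lt_trichotomy i j with h | h | h
    · exact absurd hj (lt i j k h hi)
    · exact h
    · exact absurd hi (lt j i k h hj)
  obtain ⟨idx, hidx⟩ : ∃ idx : ℤ → ℕ, ∀ k i, k ∈ T i → idx k = i := by
    classical
    refine ⟨fun k => if h : ∃ i, k ∈ T i then h.choose else 0, fun k i hk => ?_⟩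
    have h : ∃ i, k ∈ T i := ⟨i, hk⟩
    simp only [dif_pos h]
    exact uniq _ _ k h.choose_spec hk
  refine ⟨fun k => μ (idx k) k, fun S c t ht => ?_, fun C => ?_⟩
  · set I := S.image idx with hI
    have e : ∀ x, poly S (fun k => μ (idx k) k * c k) x =
        ∑ i ∈ I, poly S (fun k => μ i k * c k) x := by
      intro x
      simp only [poly]
      rw [sum_comm]
      refine sum_congr rfl fun k hk => ?_
      rw [sum_eq_single (idx k)]
      · intro i _ hi
        rw [h2 i k (fun h => hi (hidx k i h).symm), zero_mul, zero_mul]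
      · intro h
        exact absurd (mem_image_of_mem idx hk) h
    have geo : ∀ a : ℝ, 0 ≤ a → ∑ i ∈ I, a / 2 / 2 ^ i ≤ a := fun a ha =>
      sum_le_hasSum I (fun _ _ => by positivity) (hasSum_geometric_two' a)
    have sub : {x : ℝ | x ∈ Set.Icc (0 : ℝ) 1 ∧ t < ‖poly S (fun k => μ (idx k) k * c k) x‖} ⊆
        ⋃ i ∈ I, {x : ℝ | x ∈ Set.Icc (0 : ℝ) 1 ∧
          t / 2 / 2 ^ i < ‖poly S (fun k => μ i k * c k) x‖} := by
      intro x hx
      by_contra hne
      simp only [Set.mem_iUnion, Set.mem_ofPred_eq, not_exists, not_and, not_lt] at hne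
      have := (norm_sum_le_of_le I fun i hi => hne i hi hx.1).trans (geo t ht.le)
      rw [← e] at this
      exact absurd hx.2 (not_lt.2 this)
    set X := ∑ k ∈ S, ‖c k‖ ^ 2 with hX
    refine (measure_mono sub).trans ((measure_biUnion_finset_le _ _).trans ?_)
    refine (sum_le_sum fun i _ => h3 i S c _ (by positivity)).trans ?_
    rw [← ENNReal.ofReal_sum_of_nonneg (fun _ _ => by positivity)]
    apply ENNReal.ofReal_le_ofReal
    have e2 : ∀ i ∈ I, 1 / 32 ^ (i + 1) * X ^ 2 / (t / 2 / 2 ^ i) ^ 4 =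
        X ^ 2 / t ^ 4 / 2 / 2 ^ i := by
      intro i _
      rw [show (32 : ℝ) = 2 ^ 5 by norm_num, ← pow_mul]
      field_simp
      ring
    rw [sum_congr rfl e2]
    refine (geo _ (by positivity)).trans ?_
    rw [one_mul]
    refine div_le_div_of_nonneg_right ?_ (by positivity)
    have := sq_integral_le (h := fun x => ‖poly S c x‖ ^ 2) (by fun_prop)
    rw [parseval] at this
    simpa only [← pow_mul] using this
  · obtain ⟨i, hi⟩ := exists_nat_ge |C|
    obtain ⟨c, B, hB, b1, b2⟩ := h4 i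
    refine ⟨T i, c, ?_⟩
    have e : ∀ x, poly (T i) (fun k => μ (idx k) k * c k) x =
        poly (T i) (fun k => μ i k * c k) x :=
      fun x => sum_congr rfl fun k hk => by simp only [hidx k i hk]
    simp only [e]
    have h0 : 0 ≤ ∫ x in (0 : ℝ)..1, ‖poly (T i) c x‖ ^ 4 :=
      intervalIntegral.integral_nonneg zero_le_one fun _ _ => by positivity
    refine lt_of_lt_of_le ?_ b2
    calc _ ≤ i * ∫ x in (0 : ℝ)..1, ‖poly (T i) c x‖ ^ 4 :=
          mul_le_mul_of_nonneg_right ((le_abs_self C).trans hi) h0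
      _ ≤ i * B := by gcongr
      _ < _ := by linarith

end Pool.Agent.P.MP_f33f0c_an
end
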